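import Pool.Agent.Lib.helper9.RMT

set_option autoImplicit false
open Set Filter Metric Complex Topology MeasureTheory Pool.Agent.Lib.helper9.RMT

namespace Pool.Agent.H.MP_a0a602_an

/-- the class S^c -/
def Sc (f : ℂ → ℂ) : Prop :=
  DifferentiableOn ℂ f (ball 0 1) ∧ InjOn f (ball 0 1) ∧ f 0 = 0 ∧ deriv f 0 = 1 ∧
    Convex ℝ (f '' ball 0 1)

/-- omitted area -/
noncomputable def area (f : ℂ → ℂ) (r : ℝ) : ENNReal := volume (ball (0 : ℂ) r \ f '' ball 0 1)

/-- extremal functions for the omitted area -/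
def Extremal (r : ℝ) (f : ℂ → ℂ) : Prop := Sc f ∧ ∀ g, Sc g → area g r ≤ area f r

theorem inv_an {α : ℂ → ℂ} {U : Set ℂ} (hU : IsOpen U) (hα : AnalyticOnNhd ℂ α U)
    (hi : InjOn α U) : (∀ z ∈ U, 𝓝 (α z) ≤ map α (𝓝 z)) ∧
      AnalyticOnNhd ℂ (Function.invFunOn α U) (α '' U) := by
  have e0 : ∀ z ∈ U, Function.invFunOn α U (α z) = z := hi.leftInvOn_invFunOn
  have nc : ∀ z ∈ U, ¬ ∀ᶠ y in 𝓝 z, α y = α z := fun z hz h => by
    obtain ⟨y, h1, h2⟩ := (((h.and (hU.eventually_mem hz)).filter_mono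
      (nhdsWithin_le_nhds (s := {z}ᶜ))).and self_mem_nhdsWithin).exists
    exact h2 (hi h1.2 hz h1.1)
  have e1 : ∀ z ∈ U, 𝓝 (α z) ≤ map α (𝓝 z) := fun z hz =>
    (hα z hz).eventually_constant_or_nhds_le_map_nhds.resolve_left (nc z hz)
  have e2 : ∀ z ∈ U, Tendsto (Function.invFunOn α U) (𝓝 (α z)) (𝓝 z) :=
    fun z hz => (tendsto_map'_iff.mpr (tendsto_id.congr'
      ((hU.eventually_mem hz).mono fun y hy => (e0 y hy).symm))).mono_left (e1 z hz)
  have e3 : ∀ z ∈ U, ∀ᶠ y in 𝓝 (α z), y ∈ α '' U := fun z hz =>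
    e1 z hz (image_mem_map (hU.mem_nhds hz))
  have e4 : ∀ z ∈ U, ContinuousAt (Function.invFunOn α U) (α z) :=
    fun z hz => by rw [ContinuousAt, e0 z hz]; exact e2 z hz
  refine ⟨e1, ?_⟩
  rintro _ ⟨z, hz, rfl⟩
  refine Complex.analyticAt_of_differentiable_on_punctured_nhds_of_continuousAt ?_ (e4 z hz)
  have e5 : ∀ᶠ y in 𝓝[≠] z, deriv α y ≠ 0 :=
    (hα z hz).deriv.eventually_eq_zero_or_eventually_ne_zero.resolve_left fun h => by
      obtain ⟨ρ, h0, h1⟩ := Metric.eventually_nhds_iff_ball.1 (h.and (hU.eventually_mem hz))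
      exact nc z hz ((isOpen_ball.eventually_mem (mem_ball_self h0)).mono fun y hy =>
        isOpen_ball.is_const_of_deriv_eq_zero (convex_ball z ρ).isPreconnected
          (hα.differentiableOn.mono fun w hw => (h1 w hw).2) (fun w hw => (h1 w hw).1) hy
          (mem_ball_self h0))
  filter_upwards [self_mem_nhdsWithin, mem_nhdsWithin_of_mem_nhds (e3 z hz),
    mem_nhdsWithin_of_mem_nhds ((e2 z hz).eventually (eventually_nhdsWithin_iff.mp e5))]
  rintro _ h1 ⟨y, hy, rfl⟩ h2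
  rw [e0 y hy] at h2
  refine (HasDerivAt.of_local_left_inverse (f := α) (e4 y hy) ?_ (h2 fun e => h1 (congrArg α e))
    ((e3 y hy).mono fun w hw => Function.invFunOn_eq hw)).differentiableAt
  rw [e0 y hy]
  exact (hα y hy).differentiableAt.hasDerivAt

lemma m0 : (0 : ℂ) ∈ ball (0 : ℂ) 1 := mem_ball_self one_pos

lemma Sc.hd {f : ℂ → ℂ} (h : Sc f) : HasDerivAt f 1 0 :=
  h.2.2.2.1 ▸ (h.1.differentiableAt (isOpen_ball.mem_nhds m0)).hasDerivAt

lemma Sc.isOpen {f : ℂ → ℂ} (h : Sc f) : IsOpen (f '' ball 0 1) := by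
  refine isOpen_iff_mem_nhds.2 ?_
  rintro _ ⟨z, hz, rfl⟩
  exact (inv_an isOpen_ball (h.1.analyticOnNhd isOpen_ball) h.2.1).1 z hz
    (image_mem_map (isOpen_ball.mem_nhds hz))

lemma Sc.zero_mem {f : ℂ → ℂ} (h : Sc f) : (0 : ℂ) ∈ f '' ball 0 1 := ⟨0, m0, h.2.2.1⟩

/-- Schwarz: a holomorphic map of the image into the disc has derivative at most one -/
lemma Sc.schwarz {f G : ℂ → ℂ} (h : Sc f) (hG : DifferentiableOn ℂ G (f '' ball 0 1))
    (hm : ∀ w ∈ f '' ball 0 1, ‖G w‖ ≤ 1) (h0 : G 0 = 0) {d : ℂ} (hd : HasDerivAt G d 0) :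
    ‖d‖ ≤ 1 := by
  have h1 : HasDerivAt (G ∘ f) (d * 1) 0 := HasDerivAt.comp 0 (h.2.2.1.symm ▸ hd) h.hd
  have h2 := norm_deriv_le_one_of_mapsTo_ball (f := G ∘ f) (c := 0) (R := 1)
    (hG.comp h.1 (mapsTo_image _ _)) (fun z hz => by
      simp only [Function.comp, h.2.2.1, h0, mem_closedBall_zero_iff]
      exact hm _ (mem_image_of_mem f hz)) one_pos
  rwa [h1.deriv, mul_one] at h2

lemma Sc.omit {f : ℂ → ℂ} (h : Sc f) : ∃ w ∉ f '' ball 0 1, ‖w‖ < 2 := by
  have h1 := (inv_an isOpen_ball (h.1.analyticOnNhd isOpen_ball) h.2.1).2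
  have e0 : Function.invFunOn f (ball 0 1) 0 = 0 := by
    have := h.2.1.leftInvOn_invFunOn m0
    rwa [h.2.2.1] at this
  have h2 : deriv (Function.invFunOn f (ball 0 1)) (f 0) * 1 = 1 :=
    ((h1 _ (mem_image_of_mem f m0)).differentiableAt.hasDerivAt.comp 0 h.hd).unique
      ((hasDerivAt_id 0).congr_of_eventuallyEq ((isOpen_ball.eventually_mem m0).mono
        fun z hz => h.2.1.leftInvOn_invFunOn hz))
  by_contra hc
  have h4 : ball 0 2 ⊆ f '' ball 0 1 := fun w hw => by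
    by_contra e
    exact hc ⟨w, e, mem_ball_zero_iff.1 hw⟩
  have h5 := Complex.norm_deriv_le_div_of_mapsTo_ball (h1.differentiableOn.mono h4) (R₂ := 1)
    (fun w hw => by
      rw [e0]
      exact ball_subset_closedBall (Function.invFunOn_mem (h4 hw))) two_pos
  rw [h.2.2.1, mul_one] at h2
  rw [h2] at h5
  norm_num at h5

lemma Sc.growth {f : ℂ → ℂ} (h : Sc f) {z : ℂ} (hz : z ∈ ball (0 : ℂ) 1) :
    ‖f z‖ ≤ 4 * ‖z‖ / (1 - ‖z‖) := by
  obtain ⟨w, hw, hw2⟩ := h.omit
  obtain ⟨L, hL⟩ := geometric_hahn_banach_open_point h.2.2.2.2 h.isOpen hw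
  set u : ℂ := L 1 - L I * I with hu
  have e : ∀ a : ℂ, (u * a).re = L a := fun a => by
    have : L a = a.re * L 1 + a.im * L I := by
      conv_lhs => rw [show a = a.re • (1 : ℂ) + a.im • I by simp [re_add_im]]
      simp only [map_add, map_smul, smul_eq_mul]
    rw [this, hu]
    simp
    ring
  have hu0 : u ≠ 0 := fun e0 => by
    have := hL 0 h.zero_mem
    rw [← e, ← e, e0] at this
    simp at this
  have hp := norm_pos_iff.2 hu0
  have := borelCaratheodory_zero (f := fun z => u * f z) (M := 2 * ‖u‖) (R := 1) (by positivity)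
    (h.1.const_mul u) (fun y hy => by
      have a1 := hL _ (mem_image_of_mem f hy)
      rw [← e, ← e] at a1
      have a2 := re_le_norm (u * w)
      rw [norm_mul] at a2
      show (u * f y).re ≤ 2 * ‖u‖
      nlinarith) one_pos hz (by simp [h.2.2.1])
  rw [norm_mul] at this
  refine le_of_mul_le_mul_left (this.trans (le_of_eq ?_)) hp
  ring

lemma Sc.study {f : ℂ → ℂ} (h : Sc f) {x y : ℂ} (hy : y ∈ ball (0 : ℂ) 1) (hxy : ‖x‖ ≤ ‖y‖)
    {a b : ℝ} (ha : 0 ≤ a) (hb : 0 ≤ b) (hab : a + b = 1) :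
    ∃ z, ‖z‖ ≤ ‖y‖ ∧ f z = a • f x + b • f y := by
  rcases eq_or_ne y 0 with rfl | y0
  · have : x = 0 := by simpa using hxy
    exact ⟨0, le_rfl, by simp [this, h.2.2.1]⟩
  have h1 := (inv_an isOpen_ball (h.1.analyticOnNhd isOpen_ball) h.2.1).2
  have e0 : Function.invFunOn f (ball 0 1) 0 = 0 := by
    have := h.2.1.leftInvOn_invFunOn m0
    rwa [h.2.2.1] at this
  have hm : MapsTo (fun z => x / y * z) (ball (0 : ℂ) 1) (ball 0 1) := fun z hz => by
    rw [mem_ball_zero_iff] at hz ⊢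
    rw [norm_mul, norm_div]
    have : ‖x‖ / ‖y‖ ≤ 1 := div_le_one_of_le₀ hxy (norm_nonneg _)
    nlinarith [norm_nonneg z, div_nonneg (norm_nonneg x) (norm_nonneg y)]
  have hm2 : MapsTo (fun z => a • f (x / y * z) + b • f z) (ball (0 : ℂ) 1) (f '' ball 0 1) :=
    fun z hz => h.2.2.2.2 (mem_image_of_mem f (hm hz)) (mem_image_of_mem f hz) ha hb hab
  have hd : DifferentiableOn ℂ (fun z => a • f (x / y * z) + b • f z) (ball (0 : ℂ) 1) := by
    simp only [real_smul]
    exact ((h.1.comp (by fun_prop) hm).const_mul _).add (h.1.const_mul _)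
  have h3 := norm_le_norm_of_mapsTo_ball (h1.differentiableOn.comp hd hm2)
    (fun z hz => ball_subset_closedBall (Function.invFunOn_mem (hm2 hz)))
    (by simp [h.2.2.1, e0]) (mem_ball_zero_iff.1 hy)
  refine ⟨_, h3, ?_⟩
  have := Function.invFunOn_eq (hm2 hy)
  simp only [Function.comp]
  rw [this]
  simp only [div_mul_cancel₀ _ y0]

lemma limit {F : ℕ → ℂ → ℂ} (hF : ∀ n, Sc (F n)) (l : Ultrafilter ℕ) :
    ∃ f, TendstoLocallyUniformlyOn F f l (ball 0 1) := by
  have h1 : ∀ ρ : Ioo (0 : ℝ) 1, ∃ ψ, TendstoLocallyUniformlyOn F ψ l (ball 0 ρ) := fun ρ =>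
    montel l isOpen_ball (M := 4 / (1 - ρ))
      (fun k => (hF k).1.mono (ball_subset_ball ρ.2.2.le)) (fun k z hz => by
        refine ((hF k).growth (ball_subset_ball ρ.2.2.le hz)).trans ?_
        have a1 := mem_ball_zero_iff.1 hz
        have a2 := ρ.2.2
        exact div_le_div₀ (by norm_num) (by linarith) (by linarith) (by linarith))
  choose ψ hψ using h1
  refine ⟨fun z => limUnder l (fun n => F n z), ?_⟩
  have h2 : ball (0 : ℂ) 1 = ⋃ ρ : Ioo (0 : ℝ) 1, ball 0 ρ := by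
    ext z
    simp only [mem_ball_zero_iff, mem_iUnion]
    refine ⟨fun hz => ⟨⟨(1 + ‖z‖) / 2, by positivity, by linarith⟩, by simp only; linarith⟩,
      fun ⟨ρ, h⟩ => h.trans ρ.2.2⟩
  rw [h2]
  refine tendstoLocallyUniformlyOn_iUnion (fun _ => isOpen_ball) fun ρ => (hψ ρ).congr_right ?_
  intro z hz
  exact ((hψ ρ).tendsto_at hz).limUnder_eq.symm

lemma limit_Sc {F : ℕ → ℂ → ℂ} (hF : ∀ n, Sc (F n)) {l : Ultrafilter ℕ} {f : ℂ → ℂ}
    (hψ : TendstoLocallyUniformlyOn F f l (ball 0 1)) : Sc f := by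
  have hd : DifferentiableOn ℂ f (ball 0 1) :=
    hψ.differentiableOn (Eventually.of_forall fun k => (hF k).1) isOpen_ball
  have hp0 : f 0 = 0 := by
    refine tendsto_nhds_unique (hψ.tendsto_at m0) ?_
    simp only [(hF _).2.2.1]; exact tendsto_const_nhds
  have hp1 : deriv f 0 = 1 := by
    refine tendsto_nhds_unique
      ((hψ.deriv (Eventually.of_forall fun k => (hF k).1) isOpen_ball).tendsto_at m0) ?_
    simp only [Function.comp, (hF _).2.2.2.1]; exact tendsto_const_nhds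
  have key : ∀ x y : ℂ, y ∈ ball (0 : ℂ) 1 → ‖x‖ ≤ ‖y‖ → ∀ a b : ℝ, 0 ≤ a → 0 ≤ b → a + b = 1 →
      a • f x + b • f y ∈ f '' ball 0 1 := fun x y hy hxy a b ha hb hab => by
    have hx : x ∈ ball (0 : ℂ) 1 := mem_ball_zero_iff.2 (hxy.trans_lt (mem_ball_zero_iff.1 hy))
    choose z hz using fun n => (hF n).study hy hxy ha hb hab
    obtain ⟨c, hc, hl⟩ := (isCompact_closedBall (0 : ℂ) ‖y‖).ultrafilter_le_nhds (l.map z) (by
      rw [le_principal_iff]
      exact mem_map.2 (Eventually.of_forall fun k => by simpa using (hz k).1))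
    have hc1 : c ∈ ball (0 : ℂ) 1 := closedBall_subset_ball (mem_ball_zero_iff.1 hy) hc
    refine ⟨c, hc1, tendsto_nhds_unique (hψ.tendsto_comp (g := z) (hd.continuousOn c hc1) hc1
      (by rw [isOpen_ball.nhdsWithin_eq hc1]; exact hl)) ?_⟩
    simp only [(hz _).2]
    exact ((hψ.tendsto_at hx).const_smul a).add ((hψ.tendsto_at hy).const_smul b)
  refine ⟨hd, fun z hz w hw e => ?_, hp0, hp1, ?_⟩
  · by_contra hzw
    obtain ⟨r, hr, hb⟩ := Metric.isOpen_iff.1 (isOpen_ball.inter isOpen_ne) z ⟨hz, hzw⟩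
    have h1 := hurwitz isOpen_ball (convex_ball z r).isPreconnected
      (g := fun k x => F k x - F k w) (ψ := fun x => f x - f w)
      (fun k => ((hF k).1.mono fun x hx => (hb hx).1).sub_const _)
      (fun k x hx e' => (hb hx).2 ((hF k).2.1 (hb hx).1 hw (sub_eq_zero.1 e')))
      ((hψ.mono fun x hx => (hb hx).1).sub
        ((hψ.tendsto_at hw).tendstoUniformlyOn_const _).tendstoLocallyUniformlyOn)
      (mem_ball_self hr) (sub_eq_zero.2 e)
    have h2 := ((hd.sub_const (f w)).analyticOnNhd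
      isOpen_ball).eqOn_zero_of_preconnected_of_eventuallyEq_zero
      (convex_ball 0 1).isPreconnected hz (h1.eventuallyEq_of_mem (ball_mem_nhds z hr))
    have h3 : f =ᶠ[𝓝 0] fun _ => f w :=
      (isOpen_ball.eventually_mem m0).mono fun x hx => sub_eq_zero.1 (h2 hx)
    rw [h3.deriv_eq] at hp1
    simp at hp1
  · rintro _ ⟨x, hx, rfl⟩ _ ⟨y, hy, rfl⟩ a b ha hb hab
    rcases le_total ‖x‖ ‖y‖ with h | h
    · exact key x y hy h a b ha hb hab
    · rw [add_comm]
      exact key y x hx h b a hb ha (by linarith)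

theorem exists_extremal (r : ℝ) : ∃ f, Extremal r f := by
  have hid : Sc id := ⟨differentiableOn_id, injOn_id _, rfl, by simp, by simpa using convex_ball _ _⟩
  set T : Set ENNReal := {t | ∃ f, Sc f ∧ area f r = t}
  obtain ⟨u, -, hu, hu'⟩ := exists_seq_tendsto_sSup (S := T) ⟨_, id, hid, rfl⟩ (OrderTop.bddAbove _)
  choose F hF hFu using hu'
  obtain ⟨f, hf⟩ := limit hF (hyperfilter ℕ)
  have hS := limit_Sc hF hf
  refine ⟨f, hS, fun g hg => (le_sSup (s := T) ⟨g, hg, rfl⟩).trans ?_⟩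
  -- exhaust the image by compact sets
  refine ENNReal.le_of_forall_pos_le_add fun ε hε _ => ?_
  have hfin : volume (ball (0 : ℂ) r ∩ f '' ball 0 1) ≠ ⊤ :=
    (measure_mono inter_subset_left |>.trans_lt measure_ball_lt_top).ne
  obtain ⟨K, hK, hKc, hKv⟩ := (isOpen_ball.inter hS.isOpen).measurableSet.exists_isCompact_sdiff_lt
    hfin (ε := ε) (by simpa using hε.ne')
  have hev : ∀ᶠ n in hyperfilter ℕ, K ⊆ F n '' ball 0 1 := by
    refine hKc.induction_on (p := fun S => ∀ᶠ n in hyperfilter ℕ, S ⊆ F n '' ball 0 1)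
      (Eventually.of_forall fun _ => empty_subset _)
      (fun s t hst h => h.mono fun n hn => hst.trans hn)
      (fun s t hs ht => (hs.and ht).mono fun n hn => union_subset hn.1 hn.2) ?_
    intro w hw
    obtain ⟨z, hz, rfl⟩ := (hK hw).2
    obtain ⟨ρ, hρ, hb⟩ := Metric.nhds_basis_closedBall.mem_iff.1 (isOpen_ball.mem_nhds hz)
    obtain ⟨y, hy, hmin⟩ := (isCompact_sphere z ρ).exists_isMinOn
      (NormedSpace.sphere_nonempty.2 hρ.le) (f := fun y => ‖f y - f z‖)
      (((hS.1.continuousOn.mono (sphere_subset_closedBall.trans hb)).sub continuousOn_const).norm)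
    have hm : 0 < ‖f y - f z‖ := norm_pos_iff.2 fun e => by
      have := hS.2.1 (hb (sphere_subset_closedBall hy)) hz (sub_eq_zero.1 e)
      rw [this, mem_sphere, dist_self] at hy
      exact hρ.ne hy
    have hu := (tendstoLocallyUniformlyOn_iff_forall_isCompact isOpen_ball).1 hf _ hb
      (isCompact_closedBall z ρ)
    refine ⟨ball (f z) (‖f y - f z‖ / 8), mem_nhdsWithin_of_mem_nhds (ball_mem_nhds _ (by positivity)),
      ?_⟩
    filter_upwards [Metric.tendstoUniformlyOn_iff.1 hu (‖f y - f z‖ / 8) (by positivity)] with n hn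
    have b0 := hn z (mem_closedBall_self hρ.le)
    have h1 := DiffContOnCl.ball_subset_image_closedBall (f := F n) (z₀ := z) (r := ρ)
      (ε := ‖f y - f z‖ / 2) (by
        refine DifferentiableOn.diffContOnCl ?_
        rw [closure_ball _ hρ.ne']
        exact (hF n).1.mono hb) hρ (fun x hx => by
        have b1 := hn x (sphere_subset_closedBall hx)
        have b2 : ‖f y - f z‖ ≤ ‖f x - f z‖ := hmin hx
        simp only [← dist_eq_norm] at b0 b1 b2 hm ⊢
        linarith [dist_triangle4 (f x) (F n x) (F n z) (f z), dist_comm (F n z) (f z)]) (by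
        refine Frequently.filter_mono ?_ (nhdsWithin_le_nhds (s := {z}ᶜ))
        refine Eventually.frequently ?_
        filter_upwards [self_mem_nhdsWithin, mem_nhdsWithin_of_mem_nhds (isOpen_ball.mem_nhds hz)]
        exact fun x h1 h2 e => h1 ((hF n).2.1 h2 hz e))
    intro v hv
    refine image_mono hb (h1 ?_)
    rw [mem_ball] at hv ⊢
    linarith [dist_triangle v (f z) (F n z)]
  refine le_of_tendsto (hu.mono_left Nat.hyperfilter_le_atTop) (hev.mono fun n hn => ?_)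
  rw [← hFu n]
  refine (measure_mono (t := (ball 0 r \ f '' ball 0 1) ∪ ((ball 0 r ∩ f '' ball 0 1) \ K))
    fun w hw => ?_).trans ((measure_union_le _ _).trans (add_le_add le_rfl hKv.le))
  by_cases e : w ∈ f '' ball 0 1
  · exact Or.inr ⟨⟨hw.1, e⟩, fun e' => hw.2 (hn e')⟩
  · exact Or.inl ⟨hw.1, e⟩

end Pool.Agent.H.MP_a0a602_an
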