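import Pool.Agent.H.MP_a0a602_an.A

set_option autoImplicit false
open Set Filter Metric Complex Topology MeasureTheory Pool.Agent.Lib.helper9.RMT ComplexConjugate
open scoped Pointwise

namespace Pool.Agent.H.MP_a0a602_an

lemma build {Ω : Set ℂ} (ho : IsOpen Ω) (hc : Convex ℝ Ω) {c : ℝ} (c0 : 0 < c)
    (hΩ : ∀ w ∈ Ω, -c < w.re) {h : ℂ → ℂ} (hd : DifferentiableOn ℂ h (ball 0 1))
    (hm : MapsTo h (ball 0 1) Ω) (h0 : h 0 = 0) {d : ℂ} (hh : HasDerivAt h d 0) {ρ : ℝ}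
    (ρ0 : 0 < ρ) (hρ : ρ ≤ ‖d‖) : ∃ g, Sc g ∧ ∀ w ∈ g '' ball 0 1, (ρ : ℂ) * w ∈ Ω := by
  have z0 : (0 : ℂ) ∈ Ω := h0 ▸ hm m0
  have hs : IsSimplyConnected Ω := by
    have := hc.contractibleSpace ⟨0, z0⟩
    exact SimplyConnectedSpace.ofContractible _
  have ne : ∀ w ∈ Ω, w + 2 * c ≠ 0 := fun w hw e => by
    have := congrArg re e
    simp at this
    linarith [hΩ w hw]
  have cne : (c : ℂ) ≠ 0 := ofReal_ne_zero.2 c0.ne'
  have hD : ∀ w ∈ Ω, HasDerivAt (fun w : ℂ => w / (w + 2 * c)) (2 * c / (w + 2 * c) ^ 2) w :=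
    fun w hw => ((hasDerivAt_id' w).fun_div ((hasDerivAt_id' w).add_const _) (ne w hw)).congr_deriv
      (by ring)
  obtain ⟨ψ, φ, C⟩ := rmt_of_adm ho hs z0 (g := fun w => w / (w + 2 * c))
    ⟨fun w hw => (hD w hw).differentiableAt.differentiableWithinAt, fun w hw => by
      rw [norm_div, div_lt_one (norm_pos_iff.2 (ne w hw))]
      refine lt_of_pow_lt_pow_left₀ 2 (norm_nonneg _) ?_
      simp only [Complex.sq_norm, normSq_apply]
      simp
      nlinarith [hΩ w hw], fun x hx y hy e => by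
      rw [div_eq_div_iff (ne x hx) (ne y hy)] at e
      exact mul_right_cancel₀ (mul_ne_zero two_ne_zero cne) (by linear_combination e),
      fun w hw => by
        rw [(hD w hw).deriv]
        exact div_ne_zero (mul_ne_zero two_ne_zero cne) (pow_ne_zero _ (ne w hw)), by simp⟩
  have φ0 : φ 0 = 0 := by simpa [C.z] using C.l 0 z0
  have dψ := (C.dψ.differentiableAt (ho.mem_nhds z0)).hasDerivAt
  have dφ := (C.dφ.differentiableAt (isOpen_ball.mem_nhds m0)).hasDerivAt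
  have e1 : deriv ψ 0 * deriv φ 0 = 1 :=
    (HasDerivAt.comp 0 (h₂ := ψ) (by rw [φ0]; exact dψ) dφ).unique
      ((hasDerivAt_id 0).congr_of_eventuallyEq ((isOpen_ball.eventually_mem m0).mono C.r))
  have e2 : ‖deriv ψ 0 * d‖ ≤ 1 := by
    rw [← (HasDerivAt.comp 0 (h₂ := ψ) (by rw [h0]; exact dψ) hh).deriv]
    exact norm_deriv_le_one_of_mapsTo_ball (C.dψ.comp hd hm) (fun z hz => by
      simp only [Function.comp, h0, C.z]
      exact ball_subset_closedBall (C.mψ (hm hz))) one_pos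
  obtain ⟨D, hD'⟩ : ∃ D, D = deriv φ 0 := ⟨_, rfl⟩
  rw [← hD'] at e1 dφ
  have D0 : D ≠ 0 := right_ne_zero_of_mul_eq_one e1
  have Dp := norm_pos_iff.2 D0
  have e3 : ρ ≤ ‖D‖ := by
    have := congrArg norm e1
    rw [norm_mul, norm_one] at this
    rw [norm_mul] at e2
    nlinarith [norm_nonneg d, norm_nonneg (deriv ψ 0)]
  have Dn : (‖D‖ : ℂ) ≠ 0 := ofReal_ne_zero.2 Dp.ne'
  have hu : ‖(‖D‖ : ℂ) / D‖ = 1 := by simp [D0]
  have mu : MapsTo (fun z => (‖D‖ : ℂ) / D * z) (ball (0 : ℂ) 1) (ball 0 1) := fun z hz => by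
    rwa [mem_ball_zero_iff, norm_mul, hu, one_mul, ← mem_ball_zero_iff]
  have im : (fun z => φ ((‖D‖ : ℂ) / D * z) / ‖D‖) '' ball 0 1 = (‖D‖⁻¹ : ℝ) • Ω := by
    ext w
    constructor
    · rintro ⟨z, hz, rfl⟩
      exact ⟨_, C.mφ (mu hz), by simp [div_eq_inv_mul]⟩
    · rintro ⟨w, hw, rfl⟩
      refine ⟨D / ‖D‖ * ψ w, ?_, ?_⟩
      · have := C.mψ hw
        rw [mem_ball_zero_iff] at this ⊢
        simpa [D0] using this
      · have : (‖D‖ : ℂ) / D * (D / ‖D‖ * ψ w) = ψ w := by field_simp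
        simp only [this, C.l w hw]
        simp [div_eq_inv_mul]
  refine ⟨fun z => φ ((‖D‖ : ℂ) / D * z) / ‖D‖, ⟨(C.dφ.comp (by fun_prop) mu).div_const _,
    fun x hx y hy e => ?_, by simp [φ0], ?_, im ▸ hc.smul _⟩, ?_⟩
  · have := congrArg ψ ((div_left_inj' Dn).1 e)
    rw [C.r _ (mu hx), C.r _ (mu hy)] at this
    exact mul_left_cancel₀ (div_ne_zero Dn D0) this
  · have := (HasDerivAt.comp (0 : ℂ) (h₂ := φ) (h := fun z => (‖D‖ : ℂ) / D * z)
      (by simpa using dφ) ((hasDerivAt_id' (0 : ℂ)).const_mul _)).div_const (‖D‖ : ℂ)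
    refine this.deriv.trans ?_
    field_simp
  · rw [im]
    rintro _ ⟨w, hw, rfl⟩
    have := hc.smul_mem_of_zero_mem z0 hw (t := ρ / ‖D‖) ⟨by positivity, (div_le_one Dp).2 e3⟩
    simpa [div_eq_mul_inv, mul_assoc] using this

lemma vol_rot {u : ℂ} (hu : ‖u‖ = 1) (S : Set ℂ) : volume ((fun w => u * w) ⁻¹' S) = volume S :=
  ((rotation ⟨u, mem_sphere_zero_iff_norm.2 hu⟩).measurePreserving).measure_preimage_equiv
    (f := (rotation ⟨u, mem_sphere_zero_iff_norm.2 hu⟩).toHomeomorph.toMeasurableEquiv) S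

lemma rot {f : ℂ → ℂ} (h : Sc f) {u : ℂ} (hu : ‖u‖ = 1) :
    ∃ g, Sc g ∧ g '' ball 0 1 = (fun w => u * w) ⁻¹' (f '' ball 0 1) ∧ ∀ r, area g r = area f r := by
  have u0 : u ≠ 0 := norm_pos_iff.1 (hu ▸ one_pos)
  have mu : MapsTo (fun z => u * z) (ball (0 : ℂ) 1) (ball 0 1) := fun z hz => by
    rwa [mem_ball_zero_iff, norm_mul, hu, one_mul, ← mem_ball_zero_iff]
  have im : (fun z => f (u * z) / u) '' ball 0 1 = (fun w => u * w) ⁻¹' (f '' ball 0 1) := by
    ext w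
    constructor
    · rintro ⟨z, hz, rfl⟩
      exact ⟨_, mu hz, by field_simp⟩
    · rintro ⟨z, hz, e⟩
      refine ⟨z / u, by simpa [hu] using hz, ?_⟩
      simp only at e ⊢
      rw [mul_div_cancel₀ _ u0, e, mul_div_cancel_left₀ _ u0]
  refine ⟨fun z => f (u * z) / u, ⟨(h.1.comp (by fun_prop) mu).div_const _,
    fun x hx y hy e => mul_left_cancel₀ u0 (h.2.1 (mu hx) (mu hy) ((div_left_inj' u0).1 e)),
    by simp [h.2.2.1], ?_, ?_⟩, im, fun r => ?_⟩
  · have := (HasDerivAt.comp (0 : ℂ) (h₂ := f) (h := fun z => u * z)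
      (by simpa using h.hd) ((hasDerivAt_id' (0 : ℂ)).const_mul _)).div_const u
    refine this.deriv.trans ?_
    field_simp
  · rw [im]
    exact h.2.2.2.2.is_linear_preimage ⟨fun x y => mul_add _ _ _, fun c x => by simp; ring⟩
  · rw [area, area, im, ← vol_rot hu (ball 0 r \ f '' ball 0 1), preimage_sdiff]
    congr 2
    ext w
    simp [hu]

/-- the sector with vertex `-c` and half angle `α` -/
def Sec (α c : ℝ) : Set ℂ := {w | |w.im| * Real.cos α < (w.re + c) * Real.sin α}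

lemma trig {α θ : ℝ} (h0 : 0 < α) (h1 : α ≤ Real.pi / 2) (h2 : |θ| ≤ Real.pi) :
    |Real.sin θ| * Real.cos α < Real.cos θ * Real.sin α ↔ |θ| < α := by
  rw [Real.abs_sin_eq_sin_abs_of_abs_le_pi h2, ← Real.cos_abs θ, ← sub_pos,
    show Real.cos |θ| * Real.sin α - Real.sin |θ| * Real.cos α = Real.sin (α - |θ|) by
      rw [Real.sin_sub]; ring]
  refine ⟨fun h => ?_, fun h => Real.sin_pos_of_pos_of_lt_pi (by linarith)
    (by linarith [abs_nonneg θ, Real.pi_pos])⟩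
  by_contra e
  exact h.not_ge (Real.sin_nonpos_of_nonpos_of_neg_pi_le (by linarith) (by linarith))

lemma sec_iff {α : ℝ} (h0 : 0 < α) (h1 : α ≤ Real.pi / 2) (ζ : ℂ) :
    |ζ.im| * Real.cos α < ζ.re * Real.sin α ↔ ζ ≠ 0 ∧ |arg ζ| < α := by
  rcases eq_or_ne ζ 0 with rfl | z0
  · simp
  have hp := norm_pos_iff.2 z0
  rw [← trig h0 h1 (abs_arg_le_pi ζ), sin_arg, cos_arg z0, abs_div, abs_norm, div_mul_eq_mul_div,
    div_mul_eq_mul_div, div_lt_div_iff_of_pos_right hp]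
  simp [z0]

lemma sec_lb {f : ℂ → ℂ} (h : Sc f) {α c : ℝ} (h0 : 0 < α) (h1 : α ≤ Real.pi / 2) (c0 : 0 < c)
    (hf : f '' ball 0 1 ⊆ Sec α c) : Real.pi / (4 * α) ≤ c := by
  have pp := Real.pi_pos
  obtain ⟨β, hβ⟩ : ∃ β : ℝ, β = Real.pi / (2 * α) := ⟨_, rfl⟩
  have β0 : 0 < β := by rw [hβ]; positivity
  have cne : (c : ℂ) ≠ 0 := ofReal_ne_zero.2 c0.ne'
  have a1 : ∀ w ∈ Sec α c, (w + c) / c ≠ 0 ∧ |arg ((w + c) / c)| < α := fun w hw => by
    rw [← sec_iff h0 h1, div_ofReal_re, div_ofReal_im, abs_div, abs_of_pos c0, div_mul_eq_mul_div,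
      div_mul_eq_mul_div, div_lt_div_iff_of_pos_right c0]
    simpa [Sec] using hw
  have a2 : ∀ w ∈ Sec α c, (w + c) / c ∈ slitPlane := fun w hw =>
    mem_slitPlane_iff_arg.2 ⟨fun e => by
      have := (a1 w hw).2
      rw [e, abs_of_pos pp] at this
      linarith, (a1 w hw).1⟩
  have a3 : ∀ w ∈ Sec α c, 0 < (exp (β * log ((w + c) / c))).re := fun w hw => by
    rw [exp_re]
    refine mul_pos (Real.exp_pos _) (Real.cos_pos_of_mem_Ioo ?_)
    rw [im_ofReal_mul, log_im, mem_Ioo, ← abs_lt, abs_mul, abs_of_pos β0]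
    refine (mul_lt_mul_of_pos_left (a1 w hw).2 β0).trans_eq ?_
    rw [hβ]; field_simp
  have a4 : ∀ w ∈ Sec α c, exp (β * log ((w + c) / c)) + 1 ≠ 0 := fun w hw e => by
    have := congrArg re e
    rw [add_re, one_re, zero_re] at this
    linarith [a3 w hw]
  have a5 : ∀ w ∈ Sec α c, HasDerivAt (fun w : ℂ => exp (β * log ((w + c) / c)))
      (exp (β * log ((w + c) / c)) * (β * (1 / c / ((w + c) / c)))) w := fun w hw =>
    (((((hasDerivAt_id' w).add_const (c : ℂ)).div_const c).clog (a2 w hw)).const_mul (β : ℂ)).cexp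
  have z0 := hf h.zero_mem
  have := h.schwarz (G := fun w => (exp (β * log ((w + c) / c)) - 1) /
      (exp (β * log ((w + c) / c)) + 1)) (d := (β / (2 * c) : ℝ))
    (fun w hw => (((a5 w (hf hw)).sub_const 1).fun_div ((a5 w (hf hw)).add_const 1)
      (a4 w (hf hw))).differentiableAt.differentiableWithinAt) (fun w hw => by
      rw [norm_div]
      refine div_le_one_of_le₀ (le_of_pow_le_pow_left₀ two_ne_zero (norm_nonneg _) ?_) (norm_nonneg _)
      have := a3 w (hf hw)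
      simp only [Complex.sq_norm, normSq_apply, sub_re, add_re, sub_im, add_im, one_re, one_im]
      nlinarith) (by simp [cne])
    ((((a5 0 z0).sub_const 1).fun_div ((a5 0 z0).add_const 1) (a4 0 z0)).congr_deriv (by
      simp [cne]
      field_simp
      norm_num))
  rw [norm_real, Real.norm_of_nonneg (by positivity), div_le_one (by positivity), hβ,
    div_le_iff₀ (by positivity)] at this
  rw [div_le_iff₀ (by positivity)]
  linarith

lemma pw {ζ : ℂ} (hζ : 0 < ζ.re) {γ : ℝ} (h0 : 0 < γ) (h1 : γ ≤ 1) :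
    |(exp (γ * log ζ)).im| * Real.cos (γ * (Real.pi / 2)) <
      (exp (γ * log ζ)).re * Real.sin (γ * (Real.pi / 2)) ∧
    ‖ζ‖ ^ γ * Real.cos (γ * (Real.pi / 2)) ≤ (exp (γ * log ζ)).re := by
  have pp := Real.pi_pos
  have z0 : ζ ≠ 0 := fun e => by simp [e] at hζ
  have a1 : |γ * arg ζ| < γ * (Real.pi / 2) := by
    rw [abs_mul, abs_of_pos h0]
    exact mul_lt_mul_of_pos_left (abs_arg_lt_pi_div_two_iff.2 (Or.inl hζ)) h0
  have a2 : γ * (Real.pi / 2) ≤ Real.pi / 2 := by nlinarith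
  have a3 := (trig (by positivity) a2 (by linarith)).2 a1
  rw [exp_re, exp_im, im_ofReal_mul, re_ofReal_mul, log_im, log_re, abs_mul,
    abs_of_pos (Real.exp_pos _), mul_assoc, mul_assoc, Real.rpow_def_of_pos (norm_pos_iff.2 z0),
    mul_comm γ (Real.log _)]
  refine ⟨mul_lt_mul_of_pos_left a3 (Real.exp_pos _),
    mul_le_mul_of_nonneg_left ?_ (Real.exp_pos _).le⟩
  rw [← Real.cos_abs (γ * arg ζ)]
  exact Real.cos_le_cos_of_nonneg_of_le_pi (abs_nonneg _) (by linarith) a1.le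

end Pool.Agent.H.MP_a0a602_an
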