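import Pool.Agent.H.MP_a0a602_an.B

set_option autoImplicit false
open Set Filter Metric Complex Topology MeasureTheory

namespace Pool.Agent.H.MP_a0a602_an

lemma uu {ζ : ℂ} (hζ : 0 < ζ.re) {s : ℝ} (s0 : 0 ≤ s) :
    ζ + s ≠ 0 ∧ 0 < (ζ + s ^ 2 / (ζ + s)).re ∧ s / 9 ≤ ‖ζ + s ^ 2 / (ζ + s)‖ := by
  have a0 : 0 < (ζ + s).re := by simp; linarith
  have ne : ζ + s ≠ 0 := fun e => by simp [e] at a0
  have np := norm_pos_iff.2 ne
  have a1 : ((s : ℂ) ^ 2 / (ζ + s)).re = s ^ 2 * ((ζ.re + s) / ‖ζ + s‖ ^ 2) := by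
    rw [div_eq_mul_inv, ← ofReal_pow, re_ofReal_mul, inv_re, Complex.sq_norm]
    simp
  have a2 : s ≤ ‖ζ + s‖ := le_trans (by simp; linarith) (re_le_norm (ζ + s))
  have a3 : 0 ≤ s ^ 2 * ((ζ.re + s) / ‖ζ + s‖ ^ 2) := by positivity
  refine ⟨ne, by rw [add_re, a1]; linarith, ?_⟩
  rcases le_total ‖ζ‖ (2 * s) with h | h
  · refine le_trans ?_ (re_le_norm _)
    rw [add_re, a1]
    have a4 : ‖ζ + s‖ ≤ 3 * s := (norm_add_le _ _).trans (by
      rw [norm_real, Real.norm_of_nonneg s0]; linarith)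
    have a5 : s / 9 ≤ s ^ 2 * ((ζ.re + s) / ‖ζ + s‖ ^ 2) := by
      rw [← mul_div_assoc, div_le_div_iff₀ (by norm_num) (by positivity)]
      have : ‖ζ + s‖ ^ 2 ≤ (3 * s) ^ 2 := pow_le_pow_left₀ np.le a4 2
      nlinarith [mul_le_mul_of_nonneg_left this s0, mul_nonneg (sq_nonneg s) hζ.le]
    linarith
  · have a4 : ‖(s : ℂ) ^ 2 / (ζ + s)‖ ≤ s := by
      rw [norm_div, norm_pow, norm_real, Real.norm_of_nonneg s0, div_le_iff₀ np]
      nlinarith
    have := norm_sub_le (ζ + s ^ 2 / (ζ + s)) (s ^ 2 / (ζ + s))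
    rw [add_sub_cancel_right] at this
    linarith

lemma cay {z : ℂ} (hz : z ∈ ball (0 : ℂ) 1) : 1 - z ≠ 0 ∧ 0 < ((1 + z) / (1 - z)).re := by
  rw [mem_ball_zero_iff] at hz
  have ne : 1 - z ≠ 0 := fun e => by
    rw [← sub_eq_zero.1 e] at hz
    simp at hz
  refine ⟨ne, ?_⟩
  rw [div_re, ← add_div]
  refine div_pos ?_ (normSq_pos.2 ne)
  have : ‖z‖ ^ 2 < 1 := by nlinarith [norm_nonneg z]
  rw [Complex.sq_norm, normSq_apply] at this
  simp
  nlinarith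

lemma sec_convex {α : ℝ} (h0 : 0 ≤ Real.cos α) (c : ℝ) : Convex ℝ (Sec α c) := by
  intro x hx y hy a b ha hb hab
  simp only [Sec, mem_ofPred_eq, add_im, add_re, smul_im, smul_re, smul_eq_mul] at hx hy ⊢
  have a1 : |a * x.im + b * y.im| ≤ a * |x.im| + b * |y.im| := (abs_add_le _ _).trans (by
    rw [abs_mul, abs_mul, abs_of_nonneg ha, abs_of_nonneg hb])
  have a2 := mul_le_mul_of_nonneg_right a1 h0
  have a3 : a * x.re + b * y.re + c = a * (x.re + c) + b * (y.re + c) := by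
    linear_combination (-c) * hab
  rw [a3]
  rcases ha.eq_or_lt with rfl | ha'
  · have : b = 1 := by linarith
    subst this
    simpa using hy
  · nlinarith [mul_lt_mul_of_pos_left hx ha', mul_le_mul_of_nonneg_left hy.le hb]

lemma sec_open (α c : ℝ) : IsOpen (Sec α c) := isOpen_lt (by fun_prop) (by fun_prop)

lemma cut {γ : ℝ} (h0 : 0 < γ) (h1 : γ < 1) {s : ℝ} (s0 : 0 ≤ s) (s1 : s ≤ 1 / 2) :
    ∃ g, Sc g ∧ ∀ w ∈ g '' ball 0 1, ((1 - 2 * s ^ 2 : ℝ) : ℂ) * w ∈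
      Sec (γ * (Real.pi / 2)) (1 / (2 * γ)) ∩ {w | -(1 / (2 * γ)) +
        1 / (2 * γ) * ((s / 18) ^ γ * Real.cos (γ * (Real.pi / 2)) / 2) < w.re} := by
  have pp := Real.pi_pos
  have cp : 0 < Real.cos (γ * (Real.pi / 2)) :=
    Real.cos_pos_of_mem_Ioo ⟨by nlinarith, by nlinarith⟩
  obtain ⟨c, hc⟩ : ∃ c : ℝ, c = 1 / (2 * γ) := ⟨_, rfl⟩
  have c0 : 0 < c := by rw [hc]; positivity
  rw [← hc]
  obtain ⟨a, ha⟩ : ∃ a : ℝ, a = 1 + s ^ 2 / (1 + s) := ⟨_, rfl⟩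
  have a1 : s ^ 2 / (1 + s) ≤ s ^ 2 := div_le_self (sq_nonneg s) (by linarith)
  have a0 : 1 ≤ a := by rw [ha]; exact le_add_of_nonneg_right (by positivity)
  have a2 : a ≤ 1 + s ^ 2 := by linarith
  have an : (a : ℂ) ≠ 0 := ofReal_ne_zero.2 (by linarith)
  set U : ℂ → ℂ := fun z => ((1 + z) / (1 - z) + s ^ 2 / ((1 + z) / (1 - z) + s)) / a with hU
  have b1 : ∀ z ∈ ball (0 : ℂ) 1, 0 < (U z).re ∧ s / 18 ≤ ‖U z‖ := fun z hz => by
    obtain ⟨-, p2, p3⟩ := uu (cay hz).2 s0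
    refine ⟨by rw [hU, div_ofReal_re]; positivity, ?_⟩
    rw [hU, norm_div, norm_real, Real.norm_of_nonneg (by linarith), le_div_iff₀ (by linarith)]
    nlinarith
  have b2 : ∀ z ∈ ball (0 : ℂ) 1, HasDerivAt U
      ((2 / (1 - z) ^ 2 + -(s ^ 2 * (2 / (1 - z) ^ 2)) / ((1 + z) / (1 - z) + s) ^ 2) / a) z :=
    fun z hz => by
    have d1 : HasDerivAt (fun z : ℂ => (1 + z) / (1 - z)) (2 / (1 - z) ^ 2) z :=
      (((hasDerivAt_id' z).const_add 1).fun_div ((hasDerivAt_id' z).const_sub 1)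
        (cay hz).1).congr_deriv (by ring)
    exact (d1.fun_add (((hasDerivAt_const z ((s : ℂ) ^ 2)).fun_div (d1.add_const (s : ℂ))
      (uu (cay hz).2 s0).1).congr_deriv (by ring))).div_const _
  have s1n : (1 : ℂ) + s ≠ 0 := by exact_mod_cast (by linarith : (1 + s : ℝ) ≠ 0)
  have U0 : U 0 = 1 := by
    simp only [hU, add_zero, sub_zero, div_one]
    rw [div_eq_one_iff_eq an, ha]
    push_cast
    rfl
  have b3 : ∀ z ∈ ball (0 : ℂ) 1, HasDerivAt (fun z => (c : ℂ) * (exp (γ * log (U z)) - 1)) _ z :=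
    fun z hz => ((((b2 z hz).clog (Or.inl (b1 z hz).1)).const_mul (γ : ℂ)).cexp.sub_const 1).const_mul
      (c : ℂ)
  refine build ((sec_open _ _).inter (isOpen_lt continuous_const continuous_re))
    ((sec_convex cp.le _).inter (convex_halfSpace_re_gt _)) c0 (fun w hw => ?_)
    (fun z hz => (b3 z hz).differentiableAt.differentiableWithinAt) (fun z hz => ?_)
    (by simp [U0]) (d := ((1 - s ^ 2 / (1 + s) ^ 2) / a : ℝ)) ((b3 0 m0).congr_deriv ?_)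
    (by nlinarith) ?_
  · exact lt_of_le_of_lt (le_add_of_nonneg_right (by positivity)) hw.2
  · obtain ⟨p1, p2⟩ := pw (b1 z hz).1 h0 h1.le
    have p3 : (s / 18) ^ γ ≤ ‖U z‖ ^ γ := Real.rpow_le_rpow (by positivity) (b1 z hz).2 h0.le
    have p4 : 0 < ‖U z‖ ^ γ := Real.rpow_pos_of_pos ((b1 z hz).1.trans_le (re_le_norm _)) _
    simp only [Sec, mem_inter_iff, mem_ofPred_eq, re_ofReal_mul, im_ofReal_mul, sub_re, sub_im,
      one_re, one_im, sub_zero, abs_mul, abs_of_pos c0]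
    constructor
    · nlinarith [mul_lt_mul_of_pos_left p1 c0]
    · have : (s / 18) ^ γ * Real.cos (γ * (Real.pi / 2)) / 2 < (exp (γ * log (U z))).re := by
        nlinarith [mul_le_mul_of_nonneg_right p3 cp.le, mul_pos p4 cp]
      nlinarith [mul_lt_mul_of_pos_left this c0]
  · have gn : (γ : ℂ) ≠ 0 := ofReal_ne_zero.2 h0.ne'
    rw [U0, hc]
    simp only [log_one, mul_zero, exp_zero, add_zero, sub_zero, div_one]
    push_cast
    field_simp
    ring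
  · have : s ^ 2 / (1 + s) ^ 2 ≤ s ^ 2 := div_le_self (sq_nonneg s) (by nlinarith)
    rw [norm_real]
    refine le_trans ?_ (le_abs_self _)
    rw [le_div_iff₀ (by linarith)]
    nlinarith [mul_le_mul_of_nonneg_left a2 (show 0 ≤ 1 - 2 * s ^ 2 by nlinarith), sq_nonneg (s ^ 2)]

end Pool.Agent.H.MP_a0a602_an
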