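import Pool.Agent.H.MP_a0a602_an.C

set_option autoImplicit false
open Set Filter Metric Complex Topology MeasureTheory

namespace Pool.Agent.H.MP_a0a602_an

def Reg (a b : ℝ) (p q : ℝ → ℝ) : Set ℂ := {w | w.im ∈ Ioc a b ∧ p w.im < w.re ∧ w.re < q w.im}

lemma vol_reg {a b : ℝ} (hab : a ≤ b) {p q : ℝ → ℝ} (hp : Continuous p) (hq : Continuous q)
    (h : ∀ y ∈ Ioc a b, p y ≤ q y) :
    volume (Reg a b p q) =
      ENNReal.ofReal (∫ y in a..b, (q y - p y)) := by
  have e : Reg a b p q =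
      measurableEquivRealProd ⁻¹' (Prod.swap ⁻¹' regionBetween p q (Ioc a b)) := by
    ext w; simp [regionBetween, Reg]
  have hm := measurableSet_regionBetween hp.measurable hq.measurable (measurableSet_Ioc (a := a) (b := b))
  rw [e, volume_preserving_equiv_real_prod.measure_preimage_equiv,
    Measure.volume_eq_prod, Measure.measurePreserving_swap.measure_preimage hm.nullMeasurableSet,
    volume_regionBetween_eq_integral
      (hp.integrableOn_Icc.mono_set Ioc_subset_Icc_self)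
      (hq.integrableOn_Icc.mono_set Ioc_subset_Icc_self) measurableSet_Ioc h,
    intervalIntegral.integral_of_le hab]
  rfl

lemma nsq {w : ℂ} (h : ‖w‖ < 1) : w.re ^ 2 + w.im ^ 2 < 1 := by
  have : ‖w‖ ^ 2 < 1 := by nlinarith [norm_nonneg w]
  rw [Complex.sq_norm, normSq_apply] at this
  nlinarith

lemma cap1 : volume {w : ℂ | ‖w‖ < 1 ∧ 1 / 2 ≤ w.re} ≤ ENNReal.ofReal 0.63 := by
  refine (measure_mono (t := Reg (-(7 / 8) : ℝ) (7 / 8)
    (fun _ => (0.499 : ℝ)) (fun y : ℝ => 1 - y ^ 2 / 2 - y ^ 4 / 8))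
    fun w hw => ?_).trans ?_
  · have := nsq hw.1
    have h2 := hw.2
    have h3 : w.im ^ 2 < (7 / 8) ^ 2 := by nlinarith
    have h4 := abs_lt_of_sq_lt_sq' h3 (by norm_num)
    refine ⟨⟨h4.1, h4.2.le⟩, by simp only; linarith, ?_⟩
    simp only
    obtain ⟨t, ht⟩ : ∃ t, t = w.im ^ 2 := ⟨_, rfl⟩
    have t0 : 0 ≤ t := ht ▸ sq_nonneg _
    rw [show w.im ^ 4 = t ^ 2 by rw [ht]; ring, ← ht]
    rw [← ht] at this h3
    refine lt_of_pow_lt_pow_left₀ 2 (by nlinarith) ?_
    nlinarith [pow_nonneg t0 3, pow_nonneg t0 4]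
  · rw [vol_reg (by norm_num) (by fun_prop) (by fun_prop) (fun y hy => by
      have h3 : y ^ 2 ≤ (7 / 8) ^ 2 := sq_le_sq' hy.1.le hy.2
      nlinarith [sq_nonneg y])]
    refine ENNReal.ofReal_le_ofReal ?_
    rw [intervalIntegral.integral_eq_sub_of_hasDerivAt
      (f := fun y => 0.501 * y - y ^ 3 / 6 - y ^ 5 / 40) (fun y _ =>
        ((((hasDerivAt_id' y).const_mul _).sub ((hasDerivAt_pow 3 y).div_const _)).sub
          ((hasDerivAt_pow 5 y).div_const _)).congr_deriv (by norm_num; ring))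
      (Continuous.intervalIntegrable (by fun_prop) _ _)]
    norm_num

lemma cap2 : volume {w : ℂ | ‖w‖ < 1 ∧ 0.7 ≤ w.re} ≤ ENNReal.ofReal 0.315 := by
  refine (measure_mono (t := Reg (-0.72 : ℝ) 0.72
    (fun _ => (0.699 : ℝ)) (fun y : ℝ => 1 - y ^ 2 / 2))
    fun w hw => ?_).trans ?_
  · have := nsq hw.1
    have h2 := hw.2
    have h3 : w.im ^ 2 < 0.72 ^ 2 := by nlinarith
    have h4 := abs_lt_of_sq_lt_sq' h3 (by norm_num)
    refine ⟨⟨h4.1, h4.2.le⟩, by simp only; linarith, ?_⟩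
    simp only
    nlinarith [sq_nonneg (1 - w.re)]
  · rw [vol_reg (by norm_num) (by fun_prop) (by fun_prop) (fun y hy => by
      have h3 : y ^ 2 ≤ 0.72 ^ 2 := sq_le_sq' hy.1.le hy.2
      nlinarith [sq_nonneg y])]
    refine ENNReal.ofReal_le_ofReal ?_
    rw [intervalIntegral.integral_eq_sub_of_hasDerivAt
      (f := fun y => 0.301 * y - y ^ 3 / 6) (fun y _ =>
        (((hasDerivAt_id' y).const_mul _).sub ((hasDerivAt_pow 3 y).div_const _)).congr_deriv
          (by norm_num; ring))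
      (Continuous.intervalIntegrable (by fun_prop) _ _)]
    norm_num

lemma pent : volume {w : ℂ | ‖w‖ < 1 ∧ w.re ≤ 0 ∧ 4 / 7 * |w.im| < w.re + 3 / 4} ≤
    ENNReal.ofReal 0.931 := by
  refine (measure_mono (t := Reg (-1 : ℝ) 0
    (fun y : ℝ => -(3 / 4) - 4 / 7 * y) (fun _ => (0.001 : ℝ)) ∪ Reg (0 : ℝ) 1
    (fun y : ℝ => -(3 / 4) + 4 / 7 * y) (fun _ => (0.001 : ℝ)))
    fun w hw => ?_).trans ((measure_union_le _ _).trans ?_)
  · obtain ⟨h1, h2, h3⟩ := hw
    have h4 := abs_lt.1 ((abs_im_le_norm w).trans_lt h1)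
    rcases le_or_gt w.im 0 with h | h
    · rw [abs_of_nonpos h] at h3
      exact Or.inl ⟨⟨h4.1, h⟩, by simp only; linarith, by simp only; linarith⟩
    · rw [abs_of_pos h] at h3
      exact Or.inr ⟨⟨h, h4.2.le⟩, by simp only; linarith, by simp only; linarith⟩
  · rw [vol_reg (by norm_num) (by fun_prop) (by fun_prop) (fun y hy => by linarith [hy.1]),
      vol_reg (by norm_num) (by fun_prop) (by fun_prop) (fun y hy => by linarith [hy.2]),
      intervalIntegral.integral_eq_sub_of_hasDerivAt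
      (f := fun y => 0.751 * y + 2 / 7 * y ^ 2) (fun y _ =>
        (((hasDerivAt_id' y).const_mul _).add ((hasDerivAt_pow 2 y).const_mul _)).congr_deriv
          (by norm_num; ring))
      (Continuous.intervalIntegrable (by fun_prop) _ _),
      intervalIntegral.integral_eq_sub_of_hasDerivAt
      (f := fun y => 0.751 * y - 2 / 7 * y ^ 2) (fun y _ =>
        (((hasDerivAt_id' y).const_mul _).sub ((hasDerivAt_pow 2 y).const_mul _)).congr_deriv
          (by norm_num; ring))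
      (Continuous.intervalIntegrable (by fun_prop) _ _),
      ← ENNReal.ofReal_add (by norm_num) (by norm_num)]
    refine ENNReal.ofReal_le_ofReal ?_
    norm_num

lemma vball {r : ℝ} (hr : 0 ≤ r) (a : ℂ) : volume (ball a r) = ENNReal.ofReal (r ^ 2 * Real.pi) := by
  rw [Complex.volume_ball, ENNReal.ofReal_mul (by positivity), ENNReal.ofReal_pow hr,
    ← NNReal.coe_real_pi, ENNReal.ofReal_coe_nnreal]

lemma big : ∃ g, Sc g ∧ ENNReal.ofReal 0.63 < area g 0.999 := by
  obtain ⟨g, hg, hs⟩ := cut (γ := 2 / 3) (s := 0) (by norm_num) (by norm_num) le_rfl (by norm_num)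
  refine ⟨g, hg, ?_⟩
  by_contra hc
  rw [not_lt] at hc
  set L : Set ℂ := {w | ‖w‖ < 0.999 ∧ w.re ≤ 0}
  have h1 : volume L ≤ ENNReal.ofReal 0.63 + ENNReal.ofReal 0.931 := by
    refine (measure_mono (t := (ball (0 : ℂ) 0.999 \ g '' ball 0 1) ∪
      {w : ℂ | ‖w‖ < 1 ∧ w.re ≤ 0 ∧ 4 / 7 * |w.im| < w.re + 3 / 4}) fun w hw => ?_).trans
      ((measure_union_le _ _).trans (add_le_add hc pent))
    by_cases e : w ∈ g '' ball 0 1
    · refine Or.inr ⟨hw.1.trans (by norm_num), hw.2, ?_⟩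
      have := (hs w e).1
      rw [show (2 / 3 : ℝ) * (Real.pi / 2) = Real.pi / 3 by ring] at this
      simp only [Sec, Real.cos_pi_div_three, Real.sin_pi_div_three, mem_ofPred_eq] at this
      norm_num at this
      have s3 : √3 ≤ 7 / 4 := Real.sqrt_le_iff.2 ⟨by norm_num, by norm_num⟩
      have : 0 < w.re + 3 / 4 := by
        by_contra e
        nlinarith [abs_nonneg w.im, Real.sqrt_nonneg 3]
      nlinarith
    · exact Or.inl ⟨mem_ball_zero_iff.2 hw.1, e⟩
  have h2 : volume (ball (0 : ℂ) 0.999) ≤ volume L + volume L := by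
    refine (measure_mono (t := L ∪ (fun w => (-1 : ℂ) * w) ⁻¹' L) fun w hw => ?_).trans
      ((measure_union_le _ _).trans (by rw [vol_rot (by simp)]))
    rw [mem_ball_zero_iff] at hw
    rcases le_total w.re 0 with h | h
    · exact Or.inl ⟨hw, h⟩
    · exact Or.inr ⟨by simpa using hw, by simpa using h⟩
  have h3 := h2.trans (add_le_add h1 h1)
  rw [vball (by norm_num), ← ENNReal.ofReal_add (by norm_num) (by norm_num),
    ← ENNReal.ofReal_add (by norm_num) (by norm_num),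
    ENNReal.ofReal_le_ofReal_iff (by norm_num)] at h3
  nlinarith [Real.pi_gt_d2]

lemma half_small {f : ℂ → ℂ} (h : Sc f) {c : ℝ} (hf : f '' ball 0 1 = Sec (Real.pi / 2) c)
    {r : ℝ} (hr : r ≤ 1) : area f r ≤ ENNReal.ofReal 0.63 := by
  have pp := Real.pi_pos
  have c0 : 0 < c := by simpa [Sec] using hf.le h.zero_mem
  have c1 := sec_lb h (by positivity) le_rfl c0 hf.le
  rw [show Real.pi / (4 * (Real.pi / 2)) = 1 / 2 by field_simp; ring] at c1
  refine le_trans ?_ cap1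
  rw [← vol_rot (u := -1) (by simp), area, hf]
  refine measure_mono ?_
  rintro w ⟨h1, h2⟩
  simp [Sec] at h1 h2 ⊢
  exact ⟨by linarith, by linarith⟩

lemma far_small {f : ℂ → ℂ} (h : Sc f) {α c : ℝ} (h0 : 0 < α) (h1 : α ≤ Real.pi / 2)
    (hf : f '' ball 0 1 = Sec α c) (hc : 0.999 ≤ c) {r : ℝ} (hr : r ≤ 1) :
    area f r ≤ ENNReal.ofReal 0.63 := by
  have pp := Real.pi_pos
  have c1 := sec_lb h h0 h1 (by linarith) hf.le
  have hd : 0.7 ≤ c * Real.sin α := by
    rcases le_total α (Real.pi / 4) with e | e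
    · have a1 := Real.sin_ge_sub_cube h0.le
      have a2 : α ≤ 0.79 := by linarith [Real.pi_lt_d2]
      have a3 : 0.895 * α ≤ Real.sin α := by nlinarith [mul_pos h0 h0]
      rw [div_le_iff₀ (by positivity)] at c1
      nlinarith [Real.pi_gt_d2]
    · have a1 := Real.sin_le_sin_of_le_of_le_pi_div_two (by linarith) h1 e
      rw [Real.sin_pi_div_four] at a1
      have s3 : 1.41 ≤ √2 := Real.le_sqrt_of_sq_le (by norm_num)
      nlinarith
  have n1 : ∀ t : ℝ, t = 1 ∨ t = -1 → ‖(-Real.sin α - t * Real.cos α * I : ℂ)‖ = 1 := by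
    intro t ht
    rw [← sq_eq_sq₀ (norm_nonneg _) zero_le_one, Complex.sq_norm, normSq_apply]
    simp only [sub_re, neg_re, ofReal_re, mul_re, mul_im, ofReal_im, I_re, I_im, sub_im, neg_im]
    rcases ht with rfl | rfl <;> nlinarith [Real.sin_sq_add_cos_sq α]
  rw [show (0.63 : ℝ) = 0.315 + 0.315 by norm_num, ENNReal.ofReal_add (by norm_num) (by norm_num)]
  refine le_trans ?_ (add_le_add ((vol_rot (n1 1 (Or.inl rfl)) _).trans_le cap2)
    ((vol_rot (n1 (-1) (Or.inr rfl)) _).trans_le cap2))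
  refine le_trans (measure_mono ?_) (measure_union_le _ _)
  rintro w ⟨h2, h3⟩
  rw [hf] at h3
  simp only [Sec, mem_ofPred_eq, not_lt] at h3
  have h4 : ‖w‖ < 1 := (mem_ball_zero_iff.1 h2).trans_le hr
  rcases le_total 0 w.im with e | e
  · rw [abs_of_nonneg e] at h3
    refine Or.inl ⟨by rwa [norm_mul, n1 1 (Or.inl rfl), one_mul], ?_⟩
    simp only [sub_re, neg_re, ofReal_re, mul_re, mul_im, ofReal_im, I_re, I_im, sub_im, neg_im]
    nlinarith
  · rw [abs_of_nonpos e] at h3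
    refine Or.inr ⟨by rwa [norm_mul, n1 (-1) (Or.inr rfl), one_mul], ?_⟩
    simp only [sub_re, neg_re, ofReal_re, mul_re, mul_im, ofReal_im, I_re, I_im, sub_im, neg_im]
    nlinarith

end Pool.Agent.H.MP_a0a602_an
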