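import Pool.Agent.H.MP_a0a602_an.D

set_option autoImplicit false
open Set Filter Metric Complex Topology MeasureTheory ComplexConjugate

namespace Pool.Agent.H.MP_a0a602_an

lemma small {γ κ : ℝ} (h1 : γ < 1) (h0 : 0 < γ) (κ0 : 0 < κ) {η K : ℝ} (η0 : 0 < η) :
    ∃ s : ℝ, 0 < s ∧ s ≤ 1 / 2 ∧ K * s ^ γ < η ∧ 4 * s ^ 2 < (κ * s ^ γ) ^ 2 := by
  have t : ∀ p : ℝ, 0 < p → Tendsto (fun s : ℝ => s ^ p) (𝓝[>] 0) (𝓝 0) := fun p hp => by
    have := (Real.continuousAt_rpow_const 0 p (Or.inr hp.le)).tendsto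
    rw [Real.zero_rpow hp.ne'] at this
    exact this.mono_left nhdsWithin_le_nhds
  have t1 := ((t γ h0).const_mul K).eventually (gt_mem_nhds (by simpa using η0 : K * 0 < η))
  have t2 := (t (1 - γ) (by linarith)).eventually (gt_mem_nhds (half_pos κ0))
  obtain ⟨s, ⟨a1, a2⟩, a3⟩ := ((t1.and t2).and (Ioc_mem_nhdsGT (show (0 : ℝ) < 1 / 2 by norm_num))).exists
  refine ⟨s, a3.1, a3.2, a1, ?_⟩
  have e : s ^ (1 - γ) * s ^ γ = s := by rw [← Real.rpow_add a3.1]; simp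
  have p := Real.rpow_pos_of_pos a3.1 γ
  have : 2 * s < κ * s ^ γ := by nlinarith
  nlinarith [a3.1]

lemma near {f : ℂ → ℂ} {r : ℝ} (h : Extremal r f) {α c : ℝ} (h0 : 0 < α) (h1 : α < Real.pi / 2)
    (hf : f '' ball 0 1 = Sec α c) (hc : c < r) (hr : r ≤ 1) : False := by
  have pp := Real.pi_pos
  have sp : 0 < Real.sin α := Real.sin_pos_of_pos_of_lt_pi h0 (by linarith)
  have cp : 0 < Real.cos α := Real.cos_pos_of_mem_Ioo ⟨by linarith, h1⟩
  have c0 : 0 < c := by simpa [Sec, sp] using hf.le h.1.zero_mem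
  have c1 := sec_lb h.1 h0 h1.le c0 hf.le
  obtain ⟨γ, hγ⟩ : ∃ γ, γ = α / (Real.pi / 2) := ⟨_, rfl⟩
  have g0 : 0 < γ := by rw [hγ]; positivity
  have g1 : γ < 1 := by rw [hγ, div_lt_one (by positivity)]; exact h1
  have g2 : γ * (Real.pi / 2) = α := by rw [hγ]; field_simp
  have g3 : 1 / (2 * γ) = Real.pi / (4 * α) := by rw [hγ]; field_simp; ring
  obtain ⟨b, hb⟩ : ∃ b, b = 1 / (2 * γ) := ⟨_, rfl⟩
  have b0 : 0 < b := by rw [hb]; positivity
  have b1 : b ≤ c := by rw [hb, g3]; exact c1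
  obtain ⟨K, hK⟩ : ∃ K, K = b * ((1 / 18 : ℝ) ^ γ * Real.cos α / 2) := ⟨_, rfl⟩
  have K0 : 0 < K := by rw [hK]; positivity
  obtain ⟨s, s0, s1, s2, s3⟩ := small g1 g0 (κ := K / 2 * Real.sin α) (by positivity)
    (η := r - c) (K := K) (by linarith)
  obtain ⟨g, hg, hs⟩ := cut g0 g1 s0.le s1
  obtain ⟨δ, hδ⟩ : ∃ δ, δ = K * s ^ γ := ⟨_, rfl⟩
  have δ0 : 0 < δ := by rw [hδ]; positivity
  rw [g2, ← hb, show b * ((s / 18) ^ γ * Real.cos α / 2) = δ by
    rw [hδ, hK, div_eq_mul_one_div s, Real.mul_rpow s0.le (by norm_num)]; ring] at hs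
  rw [show K / 2 * Real.sin α * s ^ γ = δ / 2 * Real.sin α by rw [hδ]; ring] at s3
  rw [← hδ] at s2
  obtain ⟨ρ, hρ⟩ : ∃ ρ : ℝ, ρ = 1 - 2 * s ^ 2 := ⟨_, rfl⟩
  rw [← hρ] at hs
  have ρ0 : 0 < ρ := by nlinarith
  have ρ1 : ρ ≤ 1 := by nlinarith
  set T := ball (0 : ℂ) r ∩ (Sec α b ∩ {w | -b + δ < w.re})
  have e1 : volume (ball (0 : ℂ) r ∩ g '' ball 0 1) ≤ ENNReal.ofReal (ρ ^ 2)⁻¹ * volume T := by
    have := Measure.addHaar_preimage_smul (volume : Measure ℂ) ρ0.ne' T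
    rw [Complex.finrank_real_complex, abs_of_pos (by positivity)] at this
    rw [← this]
    refine measure_mono fun w hw => ⟨?_, by simpa using hs w hw.2⟩
    have := mem_ball_zero_iff.1 hw.1
    rw [mem_ball_zero_iff, norm_smul, Real.norm_of_nonneg ρ0.le]
    nlinarith [norm_nonneg w]
  have hB : ∀ w ∈ ball ((-b + δ / 2 : ℝ) : ℂ) (δ / 2 * Real.sin α),
      w ∈ ball (0 : ℂ) r ∩ Sec α b ∧ w.re < -b + δ := fun w hw => by
    rw [mem_ball, dist_eq_norm] at hw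
    obtain ⟨e, he⟩ : ∃ e, e = w - ((-b + δ / 2 : ℝ) : ℂ) := ⟨_, rfl⟩
    rw [← he] at hw
    have e2 : w.re = e.re + (-b + δ / 2) := by rw [he, sub_re, ofReal_re]; ring
    have e3 : w.im = e.im := by rw [he, sub_im, ofReal_im]; ring
    have e4 : ‖e‖ < δ / 2 := hw.trans_le (mul_le_of_le_one_right (by positivity) (Real.sin_le_one α))
    refine ⟨⟨?_, ?_⟩, by linarith [re_le_norm e]⟩
    · rw [mem_ball_zero_iff, show w = e + ((-b + δ / 2 : ℝ) : ℂ) by rw [he]; ring]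
      refine (norm_add_le _ _).trans_lt ?_
      rw [norm_real]
      have : ‖-b + δ / 2‖ ≤ b + δ / 2 := abs_le.2 ⟨by linarith, by linarith⟩
      linarith
    · simp only [Sec, mem_ofPred_eq, e2, e3]
      have e5 : |e.im| * Real.cos α - e.re * Real.sin α ≤ ‖e‖ := by
        refine le_of_pow_le_pow_left₀ two_ne_zero (norm_nonneg _) ?_
        rw [Complex.sq_norm, normSq_apply]
        nlinarith [Real.sin_sq_add_cos_sq α, sq_abs e.im,
          sq_nonneg (|e.im| * Real.sin α + e.re * Real.cos α)]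
      nlinarith
  have e2 : volume T + ENNReal.ofReal ((δ / 2 * Real.sin α) ^ 2 * Real.pi) ≤
      volume (ball (0 : ℂ) r ∩ f '' ball 0 1) := by
    rw [← vball (by positivity) ((-b + δ / 2 : ℝ) : ℂ), ← measure_union (disjoint_left.2
      fun w h1 h2 => (hB w h2).2.not_gt h1.2.2) measurableSet_ball, hf]
    have : Sec α b ⊆ Sec α c := fun w hw => lt_of_lt_of_le hw
      (mul_le_mul_of_nonneg_right (by linarith) sp.le)
    exact measure_mono (union_subset (fun w hw => ⟨hw.1, this hw.2.1⟩)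
      fun w hw => ⟨(hB w hw).1.1, this (hB w hw).1.2⟩)
  have e3 := e2.trans ((measure_mono (inter_subset_left.trans (ball_subset_ball hr))).trans
    (vball zero_le_one 0).le)
  obtain ⟨t, t0, ht⟩ : ∃ t : ℝ, 0 ≤ t ∧ volume T = ENNReal.ofReal t :=
    ⟨_, ENNReal.toReal_nonneg, (ENNReal.ofReal_toReal
      ((le_self_add.trans e3).trans_lt ENNReal.ofReal_lt_top).ne).symm⟩
  rw [ht] at e1 e2 e3
  rw [← ENNReal.ofReal_mul (by positivity)] at e1
  rw [← ENNReal.ofReal_add t0 (by positivity)] at e2 e3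
  rw [ENNReal.ofReal_le_ofReal_iff (by positivity)] at e3
  have e4 : volume (ball (0 : ℂ) r ∩ g '' ball 0 1) < volume (ball (0 : ℂ) r ∩ f '' ball 0 1) := by
    refine e1.trans_lt (lt_of_lt_of_le ((ENNReal.ofReal_lt_ofReal_iff (by positivity)).2 ?_) e2)
    rw [inv_mul_lt_iff₀ (by positivity)]
    have q1 : 1 - ρ ^ 2 ≤ 4 * s ^ 2 := by rw [hρ]; nlinarith only [sq_nonneg (s ^ 2)]
    have q2 : 0 ≤ 1 - ρ ^ 2 := by nlinarith only [ρ0, ρ1]
    nlinarith only [mul_le_mul_of_nonneg_left e3 q2, mul_lt_mul_of_pos_right (q1.trans_lt s3) pp]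
  have e5 := ENNReal.add_lt_add_of_lt_of_le (d := area f r)
    (measure_mono sdiff_subset |>.trans_lt measure_ball_lt_top).ne e4 (h.2 g hg)
  rw [area, measure_inter_add_sdiff _ hg.isOpen.measurableSet,
    measure_inter_add_sdiff _ h.1.isOpen.measurableSet] at e5
  exact e5.false

lemma std {f : ℂ → ℂ} (h : Extremal 0.999 f) {α c : ℝ} (h0 : 0 < α) (h1 : α ≤ Real.pi / 2)
    {u : ℂ} (hu : ‖u‖ = 1) (hf : (fun w => u * w) ⁻¹' (f '' ball 0 1) = Sec α c) : False := by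
  obtain ⟨g, hg, e1, e2⟩ := rot h.1 hu
  rw [hf] at e1
  have hE : Extremal 0.999 g := ⟨hg, fun k hk => (e2 _).symm ▸ h.2 k hk⟩
  obtain ⟨k, hk, e3⟩ := big
  have e4 := e3.trans_le (hE.2 k hk)
  rcases h1.eq_or_lt with rfl | h2
  · exact e4.not_ge (half_small hg e1 (by norm_num))
  rcases le_or_gt 0.999 c with h3 | h3
  · exact e4.not_ge (far_small hg h0 h1 e1 h3 (by norm_num))
  · exact near hE h0 h2 e1 h3 (by norm_num)

lemma not_half {f : ℂ → ℂ} (h : Extremal 0.999 f) {u : ℂ} {c : ℝ} (u0 : u ≠ 0)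
    (hf : f '' ball 0 1 = {w | (u * w).re < c}) : False := by
  have np := norm_pos_iff.2 u0
  have nn : (‖u‖ : ℂ) ≠ 0 := ofReal_ne_zero.2 np.ne'
  refine std h (α := Real.pi / 2) (c := c / ‖u‖) (by positivity) le_rfl (u := -(‖u‖ / u))
    (by simp [u0]) ?_
  ext w
  have : u * (-(‖u‖ / u) * w) = -(‖u‖ * w) := by field_simp
  simp only [hf, Sec, mem_preimage, mem_ofPred_eq, this, neg_re, re_ofReal_mul,
    Real.cos_pi_div_two, Real.sin_pi_div_two, mul_zero, mul_one]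
  rw [← neg_lt_iff_pos_add, ← neg_div, div_lt_iff₀ np]
  constructor <;> intro h <;> linarith

lemma not_sector {f : ℂ → ℂ} (h : Extremal 0.999 f) {v u : ℂ} {α t : ℝ} (u0 : u ≠ 0)
    (ht : v + t * u = 0) (hf : f '' ball 0 1 = {w | w ≠ v ∧ |arg ((w - v) / u)| < α}) : False := by
  have pp := Real.pi_pos
  have np := norm_pos_iff.2 u0
  have nn : (‖u‖ : ℂ) ≠ 0 := ofReal_ne_zero.2 np.ne'
  have h0 : 0 < α := (abs_nonneg _).trans_lt (hf.le h.1.zero_mem).2
  have h1 : α ≤ Real.pi / 2 := by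
    by_contra e
    have a1 : v + I * u ∈ f '' ball 0 1 := hf.ge ⟨by simp [u0], by
      simpa [u0, abs_of_pos (half_pos pp)] using e⟩
    have a2 : v + -I * u ∈ f '' ball 0 1 := hf.ge ⟨by simp [u0], by
      simpa [u0, neg_div, abs_of_pos (half_pos pp)] using e⟩
    have hc : Convex ℝ (f '' ball 0 1) := h.1.2.2.2.2
    refine (hf.le (hc a1 a2 (show (0 : ℝ) ≤ 1 / 2 by norm_num) (show (0 : ℝ) ≤ 1 / 2 by norm_num)
      (by norm_num))).1 ?_
    simp
    ring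
  refine std h (c := t * ‖u‖) h0 h1 (u := u / ‖u‖) (by simp [u0]) ?_
  ext w
  have e1 : u / ‖u‖ * w - v = u * ((w + (t * ‖u‖ : ℝ)) / ‖u‖) := by
    rw [eq_neg_of_add_eq_zero_left ht]
    push_cast
    field_simp
    ring
  simp only [hf, mem_preimage, mem_ofPred_eq]
  rw [← sub_ne_zero, e1, mul_div_cancel_left₀ _ u0, mul_ne_zero_iff_left u0, ← sec_iff h0 h1,
    div_ofReal_re, div_ofReal_im, abs_div, abs_of_pos np, div_mul_eq_mul_div,
    div_mul_eq_mul_div, div_lt_div_iff_of_pos_right np]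
  simp [Sec]

lemma not_arc {f : ℂ → ℂ} (h : Extremal 0.999 f) {r : ℝ} (hr : r = 0.999) {p q : ℂ} (hp : ‖p‖ = r)
    (hq : ‖q‖ = r) (hf : frontier (f '' ball 0 1) ⊆
      sphere 0 r ∪ {w | (w * conj p).re = r ^ 2} ∪ {w | (w * conj q).re = r ^ 2}) : False := by
  have r0 : 0 < r := by rw [hr]; norm_num
  have a : ∀ p : ℂ, ‖p‖ = r → ∀ w : ℂ, ‖w‖ < r → (w * conj p).re ≠ r ^ 2 := fun p hp w hw e => by
    have := re_le_norm (w * conj p)
    rw [norm_mul, RCLike.norm_conj, hp, e] at this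
    nlinarith
  have b : ball (0 : ℂ) r ⊆ f '' ball 0 1 :=
    (convex_ball (0 : ℂ) r).isPreconnected.subset_of_closure_inter_subset h.1.isOpen
      ⟨0, mem_ball_self r0, h.1.zero_mem⟩ fun w hw => by
      by_contra e
      have h1 := mem_ball_zero_iff.1 hw.2
      rcases hf (show w ∈ frontier _ from ⟨hw.1, fun e' => e (interior_subset e')⟩) with (h2 | h2) | h2
      · exact h1.ne (mem_sphere_zero_iff_norm.1 h2)
      · exact a p hp w h1 h2
      · exact a q hq w h1 h2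
  obtain ⟨k, hk, e3⟩ := big
  have e4 := e3.trans_le (h.2 k hk)
  rw [area, ← hr, sdiff_eq_empty.2 b] at e4
  simp at e4

end Pool.Agent.H.MP_a0a602_an
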